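import Pool.Agent.H59.GF.N3Q

/-!
# N3A: cyclic cubics of large radical
-/

set_option autoImplicit false

namespace Pool.Agent.H59.GF.N3A

open Polynomial Pool.Agent.H7.GF Pool.Agent.H59.GF.N3Q

/-! ### two summation lemmas -/

theorem sum_sqrt {g : ℕ → ℝ} {K : ℝ} (hg : ∀ l, 0 ≤ g l)
    (hK : ∀ L : ℕ, 1 ≤ L → ∑ l ∈ Finset.Icc L (64 * L), g l ≤ K) (Λ : ℕ) :
    ∑ l ∈ Finset.Icc 1 Λ, g l * Real.sqrt l ≤ 2 * K * Real.sqrt Λ := by
  have hK0 : 0 ≤ K := (Finset.sum_nonneg fun l _ => hg l).trans (hK 1 le_rfl)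
  induction Λ using Nat.strong_induction_on with
  | _ Λ ih =>
    by_cases h0 : Λ = 0
    · subst h0
      simp
    have hlt : Λ / 4 < Λ := Nat.div_lt_self (Nat.pos_of_ne_zero h0) (by norm_num)
    have hsplit : Finset.Icc 1 Λ = Finset.Icc 1 (Λ / 4) ∪ Finset.Icc (Λ / 4 + 1) Λ := by
      ext x
      simp only [Finset.mem_union, Finset.mem_Icc]
      omega
    have hdisj : Disjoint (Finset.Icc 1 (Λ / 4)) (Finset.Icc (Λ / 4 + 1) Λ) := by
      rw [Finset.disjoint_left]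
      intro x hx hx'
      simp only [Finset.mem_Icc] at hx hx'
      omega
    rw [hsplit, Finset.sum_union hdisj]
    have h1 := ih (Λ / 4) hlt
    have h2 : Real.sqrt ((Λ / 4 : ℕ) : ℝ) ≤ Real.sqrt Λ / 2 := by
      have h3 : (((Λ / 4 : ℕ) : ℕ) : ℝ) ≤ (Λ : ℝ) / 4 := Nat.cast_div_le
      calc Real.sqrt ((Λ / 4 : ℕ) : ℝ) ≤ Real.sqrt ((Λ : ℝ) / 4) := Real.sqrt_le_sqrt h3
        _ = Real.sqrt Λ / 2 := by
          rw [Real.sqrt_div (by positivity)]
          congr 1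
          rw [show (4 : ℝ) = 2 ^ 2 by norm_num]
          exact Real.sqrt_sq (by norm_num)
    have h4 : ∑ l ∈ Finset.Icc (Λ / 4 + 1) Λ, g l * Real.sqrt l ≤ K * Real.sqrt Λ := by
      calc ∑ l ∈ Finset.Icc (Λ / 4 + 1) Λ, g l * Real.sqrt l
          ≤ ∑ l ∈ Finset.Icc (Λ / 4 + 1) Λ, g l * Real.sqrt Λ := by
            refine Finset.sum_le_sum fun l hl => mul_le_mul_of_nonneg_left ?_ (hg l)
            exact Real.sqrt_le_sqrt (by exact_mod_cast (Finset.mem_Icc.1 hl).2)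
        _ = (∑ l ∈ Finset.Icc (Λ / 4 + 1) Λ, g l) * Real.sqrt Λ := by rw [Finset.sum_mul]
        _ ≤ K * Real.sqrt Λ := by
            refine mul_le_mul_of_nonneg_right ?_ (Real.sqrt_nonneg _)
            refine le_trans (Finset.sum_le_sum_of_subset_of_nonneg ?_ fun l _ _ => hg l)
              (hK (Λ / 4 + 1) (by omega))
            intro x hx
            simp only [Finset.mem_Icc] at hx ⊢
            omega
    have h5 : 2 * K * Real.sqrt ((Λ / 4 : ℕ) : ℝ) ≤ K * Real.sqrt Λ := by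
      have := mul_le_mul_of_nonneg_left h2 (by positivity : 0 ≤ 2 * K)
      linarith
    linarith

theorem two_rpow : (5 / 3 : ℝ) ≤ (2 : ℝ) ^ (3 / 4 : ℝ) := by
  have h1 : (2 : ℝ) ^ (3 / 4 : ℝ) = ((2 : ℝ) ^ (3 : ℕ)) ^ (1 / 4 : ℝ) := by
    rw [← Real.rpow_natCast, ← Real.rpow_mul (by norm_num)]
    norm_num
  have h2 : (5 / 3 : ℝ) = (((5 / 3 : ℝ)) ^ (4 : ℕ)) ^ (1 / 4 : ℝ) := by
    rw [← Real.rpow_natCast, ← Real.rpow_mul (by norm_num)]
    norm_num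
  rw [h1, h2]
  exact Real.rpow_le_rpow (by positivity) (by norm_num) (by norm_num)

theorem sum_div {h : ℕ → ℝ} {K : ℝ} (hh : ∀ s, 0 ≤ h s)
    (hK : ∀ N : ℕ, 1 ≤ N → ∑ s ∈ Finset.Icc 1 N, h s ≤ K * (N : ℝ) ^ (1 / 4 : ℝ)) (N : ℕ) :
    ∑ s ∈ Finset.Icc 1 N, h s / s ≤ 4 * K := by
  have hK0 : 0 ≤ K := by
    have := (Finset.sum_nonneg fun l _ => hh l).trans (hK 1 le_rfl)
    simpa using this
  have key : ∀ N : ℕ, 1 ≤ N →
      ∑ s ∈ Finset.Icc 1 N, h s / s ≤ K * (4 - 3 * (N : ℝ) ^ (-(3 / 4) : ℝ)) := by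
    intro N
    induction N using Nat.strong_induction_on with
    | _ N ih =>
      intro hN
      by_cases h1 : N = 1
      · subst h1
        have := hK 1 le_rfl
        simp only [Finset.Icc_self, Finset.sum_singleton, Nat.cast_one, Real.one_rpow, div_one,
          mul_one] at this ⊢
        linarith
      have hM1 : 1 ≤ N / 2 := by omega
      have hMN : N / 2 < N := by omega
      have h2 := ih (N / 2) hMN hM1
      have hN0 : (0 : ℝ) < N := by exact_mod_cast hN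
      have hM0 : (0 : ℝ) < ((N / 2 : ℕ) : ℝ) := by exact_mod_cast hM1
      have hsplit : Finset.Icc 1 N = Finset.Icc 1 (N / 2) ∪ Finset.Icc (N / 2 + 1) N := by
        ext x
        simp only [Finset.mem_union, Finset.mem_Icc]
        omega
      have hdisj : Disjoint (Finset.Icc 1 (N / 2)) (Finset.Icc (N / 2 + 1) N) := by
        rw [Finset.disjoint_left]
        intro x hx hx'
        simp only [Finset.mem_Icc] at hx hx'
        omega
      rw [hsplit, Finset.sum_union hdisj]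
      set y : ℝ := (N : ℝ) ^ (-(3 / 4) : ℝ) with hy
      have hy0 : 0 ≤ y := by positivity
      have h3 : ∑ s ∈ Finset.Icc (N / 2 + 1) N, h s / s ≤ 2 * K * y := by
        calc ∑ s ∈ Finset.Icc (N / 2 + 1) N, h s / s
            ≤ ∑ s ∈ Finset.Icc (N / 2 + 1) N, h s * (2 / N) := by
              refine Finset.sum_le_sum fun s hs => ?_
              rw [div_eq_mul_inv]
              refine mul_le_mul_of_nonneg_left ?_ (hh s)
              have hs1 := (Finset.mem_Icc.1 hs).1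
              have hs0 : (0 : ℝ) < s := by
                have : 0 < s := by omega
                exact_mod_cast this
              have hs2 : (N : ℝ) ≤ 2 * s := by
                have : N ≤ 2 * s := by omega
                exact_mod_cast this
              rw [inv_eq_one_div, div_le_div_iff₀ hs0 hN0]
              linarith
          _ = (∑ s ∈ Finset.Icc (N / 2 + 1) N, h s) * (2 / N) := by rw [Finset.sum_mul]
          _ ≤ (K * (N : ℝ) ^ (1 / 4 : ℝ)) * (2 / N) := by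
              refine mul_le_mul_of_nonneg_right ?_ (by positivity)
              refine le_trans (Finset.sum_le_sum_of_subset_of_nonneg ?_ fun l _ _ => hh l)
                (hK N hN)
              intro x hx
              simp only [Finset.mem_Icc] at hx ⊢
              omega
          _ = 2 * K * y := by
              have h4 : (N : ℝ) ^ (1 / 4 : ℝ) = y * N := by
                rw [hy]
                nth_rewrite 3 [← Real.rpow_one (N : ℝ)]
                rw [← Real.rpow_add hN0]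
                norm_num
              rw [h4]
              field_simp
      have h5 : (5 / 3) * y ≤ ((N / 2 : ℕ) : ℝ) ^ (-(3 / 4) : ℝ) := by
        have h6 : ((N / 2 : ℕ) : ℝ) ≤ (N : ℝ) / 2 := Nat.cast_div_le
        have h7 : ((N : ℝ) / 2) ^ (-(3 / 4) : ℝ) ≤ ((N / 2 : ℕ) : ℝ) ^ (-(3 / 4) : ℝ) :=
          Real.rpow_le_rpow_of_nonpos hM0 h6 (by norm_num)
        refine le_trans ?_ h7
        rw [Real.div_rpow hN0.le (by norm_num), Real.rpow_neg (by norm_num : (0 : ℝ) ≤ 2),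
          div_inv_eq_mul, mul_comm]
        exact mul_le_mul_of_nonneg_left two_rpow hy0
      have h8 : K * (4 - 3 * ((N / 2 : ℕ) : ℝ) ^ (-(3 / 4) : ℝ)) ≤ K * (4 - 5 * y) :=
        mul_le_mul_of_nonneg_left (by linarith) hK0
      have h9 : K * (4 - 5 * y) + 2 * K * y = K * (4 - 3 * y) := by ring
      linarith
  rcases Nat.eq_zero_or_pos N with h0 | h0
  · subst h0
    simp only [zero_lt_one, Finset.Icc_eq_empty_of_lt, Finset.sum_empty]
    positivity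
  · refine (key N h0).trans ?_
    have : 0 ≤ (N : ℝ) ^ (-(3 / 4) : ℝ) := by positivity
    nlinarith [mul_nonneg hK0 this]

/-! ### the part coprime to `b` -/

theorem cop_dvd (b : ℤ) (s : ℕ) (hs : s ≠ 0) : cop b s ∣ s := by
  conv_rhs => rw [← Nat.prod_factorization_pow_eq_self hs]
  unfold cop
  rw [Finsupp.prod, Nat.support_factorization]
  exact Finset.prod_dvd_prod_of_subset _ _ _ (Finset.filter_subset _ _)

theorem cop_pos (b : ℤ) (s : ℕ) (hs : s ≠ 0) : 0 < cop b s :=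
  Nat.pos_of_dvd_of_pos (cop_dvd b s hs) (Nat.pos_of_ne_zero hs)

theorem cop_le (b : ℤ) (s : ℕ) (hs : s ≠ 0) : cop b s ≤ s :=
  Nat.le_of_dvd (Nat.pos_of_ne_zero hs) (cop_dvd b s hs)

/-! ### triples -/

/-- the set of N3S -/
def Zs (b s₂ l : ℤ) (S : ℝ) : Set ℤ :=
  {s₁ : ℤ | |(s₁ : ℝ)| ≤ S ∧ (∀ t : ℤ, Prime t → ¬ t ∣ b → ¬ (t ∣ s₁ ∧ t ∣ s₂)) ∧
    ∃ q : ℤ, l * q = s₁ ^ 2 - s₁ * s₂ + s₂ ^ 2 ∧
      (s₂ ∣ s₁ * l + b * q ^ 2 ∨ s₂ ∣ s₁ * q + b * l ^ 2)}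

/-- no common prime factor outside `b` -/
def Gc (b s l : ℤ) : Prop := ∀ t : ℤ, Prime t → ¬ t ∣ b → ¬ (t ∣ s ∧ t ∣ l)

open Classical in
/-- admissible `s₁` -/
noncomputable def Z1 (b : ℤ) (H : ℕ) (s : ℤ) (l : ℕ) : Finset ℤ :=
  (Finset.Icc (-(H : ℤ)) H).filter
    (fun s₁ => Gc b s l ∧ s₁ ∈ Zs b s l (Real.sqrt l * Real.sqrt H))

open Classical in
/-- admissible triples -/
noncomputable def Tf (b : ℤ) (H : ℕ) : Finset (ℤ × ℕ × ℤ) :=
  ((Finset.Icc (-(H : ℤ)) H).filter (fun s => s ≠ 0)).biUnion fun s =>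
    (Finset.Icc 1 (H / s.natAbs ^ 2)).biUnion fun l => (Z1 b H s l).image fun s₁ => (s, l, s₁)

theorem mem_Tf {b : ℤ} {H : ℕ} {s : ℤ} {l : ℕ} {s₁ : ℤ} : (s, l, s₁) ∈ Tf b H ↔
    (s ∈ Finset.Icc (-(H : ℤ)) H ∧ s ≠ 0) ∧ l ∈ Finset.Icc 1 (H / s.natAbs ^ 2) ∧
      s₁ ∈ Z1 b H s l := by
  unfold Tf
  simp only [Finset.mem_biUnion, Finset.mem_image, Finset.mem_filter, Prod.mk.injEq]
  constructor
  · rintro ⟨s', h1, l', h2, s₁', h3, rfl, rfl, rfl⟩
    exact ⟨h1, h2, h3⟩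
  · rintro ⟨h1, h2, h3⟩
    exact ⟨s, h1, l, h2, s₁, h3, rfl, rfl, rfl⟩

theorem card_Tf_le (b : ℤ) (H : ℕ) : (Tf b H).card ≤
    ∑ s ∈ (Finset.Icc (-(H : ℤ)) H).filter (fun s => s ≠ 0),
      ∑ l ∈ Finset.Icc 1 (H / s.natAbs ^ 2), (Z1 b H s l).card := by
  classical
  unfold Tf
  refine Finset.card_biUnion_le.trans (Finset.sum_le_sum fun s _ => ?_)
  refine Finset.card_biUnion_le.trans (Finset.sum_le_sum fun l _ => ?_)
  exact Finset.card_image_le

theorem card_T (rho' : T_RHO) (n3s : T_N3S) (n3t : T_N3T) (b : ℤ) (hb : b ≠ 0) :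
    ∃ K : ℝ, 0 ≤ K ∧ ∀ H : ℕ, 1 ≤ H → ((Tf b H).card : ℝ) ≤ K * H := by
  classical
  obtain ⟨K₂, hK₂⟩ := rho' b hb
  obtain ⟨K₁, hK₁⟩ := n3s b hb
  obtain ⟨K₃, hK₃⟩ := n3t b hb
  -- the function of RHO
  obtain ⟨g, hg⟩ : ∃ g : ℤ → ℕ → ℝ, ∀ s l, g s l =
      if (∀ t : ℕ, t.Prime → ¬ ((t : ℤ) ∣ b) → ¬ ((t : ℤ) ∣ s ∧ t ∣ l)) then
        (rho s (l : ℤ) : ℝ) / l else 0 := ⟨_, fun _ _ => rfl⟩
  have hg0 : ∀ s l, 0 ≤ g s l := by
    intro s l
    rw [hg]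
    split_ifs <;> positivity
  have hgK : ∀ s : ℤ, s ≠ 0 → ∀ L : ℕ, 1 ≤ L → ∑ l ∈ Finset.Icc L (64 * L), g s l ≤ K₂ := by
    intro s hs L hL
    have h1 := hK₂ s L hs hL
    refine le_trans (le_of_eq ?_) h1
    refine Finset.sum_congr rfl fun l _ => ?_
    rw [hg]
  have hK₂0 : 0 ≤ K₂ := (Finset.sum_nonneg fun l _ => hg0 1 l).trans (hgK 1 one_ne_zero 1 le_rfl)
  -- the function of N3T
  obtain ⟨h, hh⟩ : ∃ h : ℕ → ℝ, ∀ s, h s = (3 : ℝ) ^ (om s) / (cop b s : ℝ) := ⟨_, fun _ => rfl⟩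
  have hh0 : ∀ s, 0 ≤ h s := fun s => by rw [hh]; positivity
  have hhK : ∀ N : ℕ, 1 ≤ N → ∑ s ∈ Finset.Icc 1 N, h s ≤ K₃ * (N : ℝ) ^ (1 / 4 : ℝ) := by
    intro N hN
    have h1 := hK₃ N (by exact_mod_cast hN)
    rw [Nat.floor_natCast] at h1
    refine le_trans (le_of_eq ?_) h1
    exact Finset.sum_congr rfl fun s _ => hh s
  have hK₃0 : 0 ≤ K₃ := by
    have := (Finset.sum_nonneg fun l _ => hh0 l).trans (hhK 1 le_rfl)
    simpa using this
  refine ⟨32 * (|K₁| * K₂ * K₃), by positivity, ?_⟩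
  intro H hH
  have hH0 : (0 : ℝ) < H := by exact_mod_cast hH
  -- bound for one pair
  have hpair : ∀ s : ℤ, s ≠ 0 → ∀ l ∈ Finset.Icc 1 (H / s.natAbs ^ 2),
      ((Z1 b H s l).card : ℝ) ≤ 2 * |K₁| * h s.natAbs * Real.sqrt H * (g s l * Real.sqrt l) := by
    intro s hs l hl
    obtain ⟨hl1, hl2⟩ := Finset.mem_Icc.1 hl
    have hn0 : s.natAbs ≠ 0 := Int.natAbs_ne_zero.2 hs
    have hn1 : 0 < s.natAbs ^ 2 := by positivity
    have hl3 : l * s.natAbs ^ 2 ≤ H := (Nat.le_div_iff_mul_le hn1).1 hl2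
    have hl0 : (0 : ℝ) < l := by exact_mod_cast hl1
    by_cases hG : Gc b s l
    · have hcop := cop_pos b s.natAbs hn0
      have hcop' := cop_le b s.natAbs hn0
      have hc0 : (0 : ℝ) < cop b s.natAbs := by exact_mod_cast hcop
      have hcl : (cop b s.natAbs : ℝ) ≤ s.natAbs := by exact_mod_cast hcop'
      have hgeq : g s l = (rho s (l : ℤ) : ℝ) / l := by
        rw [hg, if_pos]
        rintro t ht htb ⟨h1, h2⟩
        exact hG t (Nat.prime_iff_prime_int.1 ht) htb ⟨h1, by exact_mod_cast h2⟩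
      have h1 := hK₁ s l (Real.sqrt l * Real.sqrt H) hs (by exact_mod_cast hl1) (by positivity) hG
      have h2 : ((Z1 b H s l).card : ℝ) ≤ ((Zs b s l (Real.sqrt l * Real.sqrt H)).ncard : ℝ) := by
        have hfin : (Zs b s l (Real.sqrt l * Real.sqrt H)).Finite := by
          refine (Set.finite_Icc (-⌈Real.sqrt l * Real.sqrt H⌉) ⌈Real.sqrt l * Real.sqrt H⌉).subset ?_
          rintro z ⟨hz, -⟩
          have h3 := abs_le.1 hz
          have h4 := Int.le_ceil (Real.sqrt l * Real.sqrt H)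
          constructor
          · have : ((-⌈Real.sqrt l * Real.sqrt H⌉ : ℤ) : ℝ) ≤ (z : ℝ) := by
              push_cast
              linarith
            exact_mod_cast this
          · have : (z : ℝ) ≤ ((⌈Real.sqrt l * Real.sqrt H⌉ : ℤ) : ℝ) := by linarith
            exact_mod_cast this
        have h3 : ((Z1 b H s l : Finset ℤ) : Set ℤ) ⊆ Zs b s l (Real.sqrt l * Real.sqrt H) := by
          intro z hz
          exact (Finset.mem_filter.1 (Finset.mem_coe.1 hz)).2.2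
        have h4 := Set.ncard_le_ncard h3 hfin
        rw [Set.ncard_coe_finset] at h4
        exact_mod_cast h4
      have h5 : (1 : ℝ) ≤ Real.sqrt l * Real.sqrt H / (l * (cop b s.natAbs : ℝ)) := by
        rw [le_div_iff₀ (by positivity), one_mul, ← Real.sqrt_mul hl0.le]
        refine Real.le_sqrt_of_sq_le ?_
        have h6 : (l * (cop b s.natAbs : ℝ)) ^ 2 ≤ (l * (s.natAbs : ℝ)) ^ 2 :=
          pow_le_pow_left₀ (by positivity) (mul_le_mul_of_nonneg_left hcl hl0.le) 2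
        have h7 : ((l : ℝ) * (s.natAbs : ℝ) ^ 2) ≤ H := by exact_mod_cast hl3
        calc (l * (cop b s.natAbs : ℝ)) ^ 2 ≤ (l * (s.natAbs : ℝ)) ^ 2 := h6
          _ = l * (l * (s.natAbs : ℝ) ^ 2) := by ring
          _ ≤ l * H := mul_le_mul_of_nonneg_left h7 hl0.le
      set u : ℝ := Real.sqrt l * Real.sqrt H / (l * (cop b s.natAbs : ℝ)) with hu
      have h8 : K₁ * 3 ^ (om s.natAbs) * rho s l * (u + 1) ≤
          |K₁| * 3 ^ (om s.natAbs) * rho s l * (2 * u) := by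
        have e1 : 0 ≤ (3 : ℝ) ^ (om s.natAbs) * rho s l := by positivity
        have e2 : K₁ * (3 ^ (om s.natAbs) * rho s l) ≤ |K₁| * (3 ^ (om s.natAbs) * rho s l) :=
          mul_le_mul_of_nonneg_right (le_abs_self _) e1
        have e3 : 0 ≤ |K₁| * ((3 : ℝ) ^ (om s.natAbs) * rho s l) := by positivity
        calc K₁ * 3 ^ (om s.natAbs) * rho s l * (u + 1)
            = K₁ * (3 ^ (om s.natAbs) * rho s l) * (u + 1) := by ring
          _ ≤ |K₁| * (3 ^ (om s.natAbs) * rho s l) * (u + 1) :=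
            mul_le_mul_of_nonneg_right e2 (by linarith)
          _ ≤ |K₁| * (3 ^ (om s.natAbs) * rho s l) * (2 * u) :=
            mul_le_mul_of_nonneg_left (by linarith) e3
          _ = _ := by ring
      refine (h2.trans h1).trans (h8.trans (le_of_eq ?_))
      rw [hgeq, hh, hu]
      field_simp
    · have h1 : Z1 b H s l = ∅ := by
        unfold Z1
        refine Finset.filter_eq_empty_iff.2 fun z _ hz => hG hz.1
      rw [h1]
      have h2 := hg0 s l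
      have h3 := hh0 s.natAbs
      simp only [Finset.card_empty, Nat.cast_zero]
      positivity
  -- sum over l
  have hsum_l : ∀ s : ℤ, s ≠ 0 → (∑ l ∈ Finset.Icc 1 (H / s.natAbs ^ 2), ((Z1 b H s l).card : ℝ)) ≤
      4 * |K₁| * K₂ * H * (h s.natAbs / s.natAbs) := by
    intro s hs
    have hn0 : s.natAbs ≠ 0 := Int.natAbs_ne_zero.2 hs
    have hn1 : (0 : ℝ) < s.natAbs := by exact_mod_cast Nat.pos_of_ne_zero hn0
    have h1 := sum_sqrt (hg0 s) (hgK s hs) (H / s.natAbs ^ 2)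
    have h2 : Real.sqrt ((H / s.natAbs ^ 2 : ℕ) : ℝ) ≤ Real.sqrt H / s.natAbs := by
      have h3 : ((H / s.natAbs ^ 2 : ℕ) : ℝ) ≤ (H : ℝ) / ((s.natAbs ^ 2 : ℕ) : ℝ) := Nat.cast_div_le
      calc Real.sqrt ((H / s.natAbs ^ 2 : ℕ) : ℝ) ≤ Real.sqrt ((H : ℝ) / ((s.natAbs ^ 2 : ℕ) : ℝ)) :=
            Real.sqrt_le_sqrt h3
        _ = Real.sqrt H / s.natAbs := by
          rw [Real.sqrt_div hH0.le]
          congr 1
          push_cast
          exact Real.sqrt_sq hn1.le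
    calc (∑ l ∈ Finset.Icc 1 (H / s.natAbs ^ 2), ((Z1 b H s l).card : ℝ))
        ≤ ∑ l ∈ Finset.Icc 1 (H / s.natAbs ^ 2),
            2 * |K₁| * h s.natAbs * Real.sqrt H * (g s l * Real.sqrt l) :=
          Finset.sum_le_sum (hpair s hs)
      _ = 2 * |K₁| * h s.natAbs * Real.sqrt H *
            ∑ l ∈ Finset.Icc 1 (H / s.natAbs ^ 2), g s l * Real.sqrt l := by
          rw [Finset.mul_sum]
      _ ≤ 2 * |K₁| * h s.natAbs * Real.sqrt H * (2 * K₂ * (Real.sqrt H / s.natAbs)) := by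
          have h3 := hh0 s.natAbs
          refine mul_le_mul_of_nonneg_left (h1.trans ?_) (by positivity)
          exact mul_le_mul_of_nonneg_left h2 (by positivity)
      _ = 4 * |K₁| * K₂ * (Real.sqrt H * Real.sqrt H) * (h s.natAbs / s.natAbs) := by ring
      _ = _ := by rw [Real.mul_self_sqrt hH0.le]
  -- sum over s
  have hφ0 : ∀ n : ℕ, 0 ≤ h n / n := fun n => by
    have := hh0 n
    positivity
  have hsum_s : ∑ s ∈ (Finset.Icc (-(H : ℤ)) H).filter (fun s => s ≠ 0),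
      (h s.natAbs / s.natAbs) ≤ 8 * K₃ := by
    have hsub : (Finset.Icc (-(H : ℤ)) H).filter (fun s => s ≠ 0) ⊆
        (Finset.Icc 1 H).image (fun n : ℕ => (n : ℤ)) ∪
          (Finset.Icc 1 H).image (fun n : ℕ => -(n : ℤ)) := by
      intro s hs
      obtain ⟨h1, h2⟩ := Finset.mem_filter.1 hs
      obtain ⟨h3, h4⟩ := Finset.mem_Icc.1 h1
      rw [Finset.mem_union]
      rcases lt_or_gt_of_ne h2 with h5 | h5
      · right
        exact Finset.mem_image.2 ⟨s.natAbs, Finset.mem_Icc.2 ⟨by omega, by omega⟩, by omega⟩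
      · left
        exact Finset.mem_image.2 ⟨s.natAbs, Finset.mem_Icc.2 ⟨by omega, by omega⟩, by omega⟩
    have hA : ∑ s ∈ (Finset.Icc 1 H).image (fun n : ℕ => (n : ℤ)), (h s.natAbs / s.natAbs) =
        ∑ n ∈ Finset.Icc 1 H, h n / n := by
      rw [Finset.sum_image (fun x _ y _ hxy => by exact_mod_cast hxy)]
      exact Finset.sum_congr rfl fun n _ => by simp
    have hB : ∑ s ∈ (Finset.Icc 1 H).image (fun n : ℕ => -(n : ℤ)), (h s.natAbs / s.natAbs) =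
        ∑ n ∈ Finset.Icc 1 H, h n / n := by
      rw [Finset.sum_image (fun x _ y _ hxy => by
        have : -(x : ℤ) = -(y : ℤ) := hxy
        omega)]
      exact Finset.sum_congr rfl fun n _ => by simp
    have h1 := sum_div hh0 hhK H
    have h2 := Finset.sum_union_inter (s₁ := (Finset.Icc 1 H).image (fun n : ℕ => (n : ℤ)))
      (s₂ := (Finset.Icc 1 H).image (fun n : ℕ => -(n : ℤ)))
      (f := fun s : ℤ => h s.natAbs / s.natAbs)
    have h3 : 0 ≤ ∑ s ∈ (Finset.Icc 1 H).image (fun n : ℕ => (n : ℤ)) ∩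
        (Finset.Icc 1 H).image (fun n : ℕ => -(n : ℤ)), (h s.natAbs / s.natAbs) :=
      Finset.sum_nonneg fun s _ => hφ0 _
    have h4 := Finset.sum_le_sum_of_subset_of_nonneg (f := fun s : ℤ => h s.natAbs / s.natAbs)
      hsub (fun s _ _ => hφ0 _)
    rw [hA, hB] at h2
    linarith
  have hfinal : ((Tf b H).card : ℝ) ≤ ∑ s ∈ (Finset.Icc (-(H : ℤ)) H).filter (fun s => s ≠ 0),
      4 * |K₁| * K₂ * H * (h s.natAbs / s.natAbs) := by
    have h1 : ((Tf b H).card : ℝ) ≤ ∑ s ∈ (Finset.Icc (-(H : ℤ)) H).filter (fun s => s ≠ 0),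
        ∑ l ∈ Finset.Icc 1 (H / s.natAbs ^ 2), ((Z1 b H s l).card : ℝ) := by
      exact_mod_cast card_Tf_le b H
    refine h1.trans (Finset.sum_le_sum fun s hs => ?_)
    exact hsum_l s (Finset.mem_filter.1 hs).2
  rw [← Finset.mul_sum] at hfinal
  refine hfinal.trans ?_
  calc 4 * |K₁| * K₂ * H * ∑ s ∈ (Finset.Icc (-(H : ℤ)) H).filter (fun s => s ≠ 0),
        (h s.natAbs / s.natAbs) ≤ 4 * |K₁| * K₂ * H * (8 * K₃) :=
        mul_le_mul_of_nonneg_left hsum_s (by positivity)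
    _ = _ := by ring

/-! ### from polynomials to triples -/

theorem ncard_rel {α β : Type*} (T : Finset β) (R : α → β → Prop)
    (hR : ∀ a a' x, R a x → R a' x → a = a') : {a | ∃ x ∈ T, R a x}.ncard ≤ T.card := by
  classical
  by_cases hne : Nonempty α
  · obtain ⟨a₀⟩ := hne
    let f : β → α := fun x => if h : ∃ a, R a x then h.choose else a₀
    have hsub : {a | ∃ x ∈ T, R a x} ⊆ f '' (T : Set β) := by
      rintro a ⟨x, hx, hax⟩
      refine ⟨x, hx, ?_⟩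
      have h : ∃ a, R a x := ⟨a, hax⟩
      simp only [f, dif_pos h]
      exact hR _ _ x h.choose_spec hax
    calc {a | ∃ x ∈ T, R a x}.ncard ≤ (f '' (T : Set β)).ncard :=
          Set.ncard_le_ncard hsub (T.finite_toSet.image f)
      _ ≤ (T : Set β).ncard := Set.ncard_image_le T.finite_toSet
      _ = T.card := Set.ncard_coe_finset T
  · have : {a | ∃ x ∈ T, R a x} = ∅ := by
      ext a
      exact absurd ⟨a⟩ hne
    rw [this]
    simp

theorem key_real {F l H B s₁ s₂ α γ : ℝ} (hH : 1 ≤ H) (hB : 1 ≤ B) (hF : 200 * B * H < F)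
    (hα : 0 < α) (hαH : α ≤ H) (hl : 0 ≤ l) (h1 : γ ^ 2 ≤ 2 * (F * l))
    (h2 : F * l ≤ 2 * γ ^ 2) (hγ : 0 < γ) (h3 : |F * s₁| ≤ 2 * (γ * α))
    (h4 : |F * s₂| * (γ * α) ≤ 6 * B * α ^ 3) : s₁ ^ 2 ≤ l * H ∧ s₂ ^ 2 * l ≤ H := by
  have hBH : 0 < B * H := by positivity
  have hF0 : 0 < F := by nlinarith
  have hHF : 8 * H ≤ F := by nlinarith
  have hα2 : α ^ 2 ≤ H ^ 2 := pow_le_pow_left₀ hα.le hαH 2
  constructor
  · have h5 : (F * s₁) ^ 2 ≤ (2 * (γ * α)) ^ 2 := by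
      rw [← sq_abs (F * s₁)]
      exact pow_le_pow_left₀ (abs_nonneg _) h3 2
    have h6 : F * (F * s₁ ^ 2) ≤ F * (F * (l * H)) := by
      calc F * (F * s₁ ^ 2) = (F * s₁) ^ 2 := by ring
        _ ≤ (2 * (γ * α)) ^ 2 := h5
        _ = 4 * (γ ^ 2 * α ^ 2) := by ring
        _ ≤ 4 * ((2 * (F * l)) * H ^ 2) := by
          refine mul_le_mul_of_nonneg_left ?_ (by norm_num)
          exact mul_le_mul h1 hα2 (by positivity) (by positivity)
        _ = F * (l * H * (8 * H)) := by ring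
        _ ≤ F * (l * H * F) := by
          refine mul_le_mul_of_nonneg_left ?_ hF0.le
          exact mul_le_mul_of_nonneg_left hHF (by positivity)
        _ = F * (F * (l * H)) := by ring
    exact le_of_mul_le_mul_left (le_of_mul_le_mul_left h6 hF0) hF0
  · have h5 : α * (|F * s₂| * γ) ≤ α * (6 * B * H ^ 2) := by
      calc α * (|F * s₂| * γ) = |F * s₂| * (γ * α) := by ring
        _ ≤ 6 * B * α ^ 3 := h4
        _ = α * (6 * B * α ^ 2) := by ring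
        _ ≤ α * (6 * B * H ^ 2) := by
          refine mul_le_mul_of_nonneg_left ?_ hα.le
          exact mul_le_mul_of_nonneg_left hα2 (by positivity)
    have h6 : |F * s₂| * γ ≤ 6 * B * H ^ 2 := le_of_mul_le_mul_left h5 hα
    have h7 : F ^ 2 * s₂ ^ 2 * γ ^ 2 ≤ 36 * B ^ 2 * H ^ 4 := by
      have h8 := pow_le_pow_left₀ (by positivity) h6 2
      rw [mul_pow, sq_abs] at h8
      calc F ^ 2 * s₂ ^ 2 * γ ^ 2 = (F * s₂) ^ 2 * γ ^ 2 := by ring
        _ ≤ (6 * B * H ^ 2) ^ 2 := h8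
        _ = 36 * B ^ 2 * H ^ 4 := by ring
    have h8 : F ^ 3 * (s₂ ^ 2 * l) ≤ 72 * B ^ 2 * H ^ 4 := by
      calc F ^ 3 * (s₂ ^ 2 * l) = F ^ 2 * s₂ ^ 2 * (F * l) := by ring
        _ ≤ F ^ 2 * s₂ ^ 2 * (2 * γ ^ 2) := mul_le_mul_of_nonneg_left h2 (by positivity)
        _ = 2 * (F ^ 2 * s₂ ^ 2 * γ ^ 2) := by ring
        _ ≤ 2 * (36 * B ^ 2 * H ^ 4) := mul_le_mul_of_nonneg_left h7 (by norm_num)
        _ = 72 * B ^ 2 * H ^ 4 := by ring
    have h9 : 72 * B ^ 2 * H ^ 3 ≤ F ^ 3 := by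
      have h10 : (200 * B * H) ^ 3 ≤ F ^ 3 := pow_le_pow_left₀ (by positivity) hF.le 3
      have h11 : B ^ 2 * H ^ 3 ≤ B ^ 3 * H ^ 3 := by
        refine mul_le_mul_of_nonneg_right ?_ (by positivity)
        exact pow_le_pow_right₀ hB (by norm_num)
      have h12 : (200 * B * H) ^ 3 = 8000000 * (B ^ 3 * H ^ 3) := by ring
      have h13 : 0 ≤ B ^ 3 * H ^ 3 := by positivity
      linarith
    have h10 : (72 * B ^ 2 * H ^ 3) * (s₂ ^ 2 * l) ≤ (72 * B ^ 2 * H ^ 3) * H := by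
      calc (72 * B ^ 2 * H ^ 3) * (s₂ ^ 2 * l) ≤ F ^ 3 * (s₂ ^ 2 * l) :=
            mul_le_mul_of_nonneg_right h9 (by positivity)
        _ ≤ 72 * B ^ 2 * H ^ 4 := h8
        _ = _ := by ring
    exact le_of_mul_le_mul_left h10 (by positivity)

/-- membership in the set of triples -/
theorem mem_T {b : ℤ} {H : ℕ} (hH : 1 ≤ H) {s₁ s₂ l q : ℤ} (hl : 0 < l) (hs : s₂ ≠ 0)
    (hlq : l * q = s₁ ^ 2 - s₁ * s₂ + s₂ ^ 2)
    (hd : s₂ ∣ s₁ * l + b * q ^ 2 ∨ s₂ ∣ s₁ * q + b * l ^ 2) (hG : Gc b s₂ l)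
    (hG' : ∀ t : ℤ, Prime t → ¬ t ∣ b → ¬ (t ∣ s₁ ∧ t ∣ s₂))
    (h1 : (s₁ : ℝ) ^ 2 ≤ l * H) (h2 : (s₂ : ℝ) ^ 2 * l ≤ H) :
    (s₂, l.toNat, s₁) ∈ Tf b H := by
  classical
  have hlN : ((l.toNat : ℕ) : ℤ) = l := Int.toNat_of_nonneg hl.le
  have hlR : ((l.toNat : ℕ) : ℝ) = (l : ℝ) := by exact_mod_cast hlN
  have hl0 : (0 : ℝ) < l := by exact_mod_cast hl
  have h2' : s₂ ^ 2 * l ≤ H := by exact_mod_cast h2
  have h1' : s₁ ^ 2 ≤ l * H := by exact_mod_cast h1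
  have hs2 : 1 ≤ s₂ ^ 2 := by
    have : 0 < s₂ ^ 2 := by positivity
    linarith
  have hlH : l ≤ H := by nlinarith
  have hsH : s₂ ^ 2 ≤ H := by nlinarith
  have hb1 : |s₂| ≤ H := by
    have h3 : |s₂| ≤ s₂ ^ 2 := by
      rw [← sq_abs]
      have : 1 ≤ |s₂| := Int.one_le_abs hs
      nlinarith
    linarith
  have hb2 : |s₁| ≤ H := by
    have h3 : s₁ ^ 2 ≤ (H : ℤ) ^ 2 := by nlinarith
    have := abs_le_of_sq_le_sq h3 (by positivity)
    exact this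
  rw [mem_Tf]
  refine ⟨⟨Finset.mem_Icc.2 (abs_le.1 hb1), hs⟩, Finset.mem_Icc.2 ⟨?_, ?_⟩, ?_⟩
  · omega
  · have hn0 : s₂.natAbs ≠ 0 := Int.natAbs_ne_zero.2 hs
    rw [Nat.le_div_iff_mul_le (by positivity)]
    have h3 : ((l.toNat * s₂.natAbs ^ 2 : ℕ) : ℤ) ≤ (H : ℤ) := by
      push_cast
      rw [sq_abs, hlN]
      linarith
    exact_mod_cast h3
  · unfold Z1
    rw [Finset.mem_filter]
    refine ⟨Finset.mem_Icc.2 (abs_le.1 hb2), ?_, ?_, hG', q, ?_, ?_⟩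
    · rw [hlN]
      exact hG
    · rw [hlR, ← Real.sqrt_mul hl0.le]
      exact Real.abs_le_sqrt h1
    · rw [hlN]
      exact hlq
    · rw [hlN]
      exact hd

theorem n3a (rho' : T_RHO) (n3s : T_N3S) (n3t : T_N3T) : T_N3A := by
  classical
  intro b hb
  obtain ⟨K, hK0, hK⟩ := card_T rho' n3s n3t b hb
  have hb1 : (1 : ℝ) ≤ |(b : ℝ)| := by exact_mod_cast Int.one_le_abs hb
  refine ⟨200 * |(b : ℝ)|, 3 + 2 * K, by linarith, ?_⟩
  intro H hH
  have hH1 : (1 : ℝ) ≤ H := by exact_mod_cast hH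
  -- relations
  let R0 : (Fin 2 → ℤ) → ℤ → Prop := fun a x => a 1 = x ∧ ∃ r : ℤ, r ^ 3 = -b ∧
    a 0 = r * a 1 - 3 * r ^ 2
  let R1 : (Fin 2 → ℤ) → ℤ × ℕ × ℤ → Prop := fun a x => x.1 ≠ 0 ∧ x.2.2 ≠ 0 ∧ (x.2.1 : ℤ) ≠ 0 ∧
    ∃ q : ℤ, (x.2.1 : ℤ) * q = x.2.2 ^ 2 - x.2.2 * x.1 + x.1 ^ 2 ∧
      a 1 * (x.2.2 * x.1) = (x.2.2 + x.1) * (x.2.1 : ℤ) + b * q ^ 2 ∧
      a 0 * (x.2.2 * x.1) = (x.2.2 + x.1) * b * q + (x.2.1 : ℤ) ^ 2
  let R2 : (Fin 2 → ℤ) → ℤ × ℕ × ℤ → Prop := fun a x => x.1 ≠ 0 ∧ x.2.2 ≠ 0 ∧ (x.2.1 : ℤ) ≠ 0 ∧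
    ∃ l : ℤ, l * (x.2.1 : ℤ) = x.2.2 ^ 2 - x.2.2 * x.1 + x.1 ^ 2 ∧
      a 1 * (x.2.2 * x.1) = (x.2.2 + x.1) * l + b * (x.2.1 : ℤ) ^ 2 ∧
      a 0 * (x.2.2 * x.1) = (x.2.2 + x.1) * b * (x.2.1 : ℤ) + l ^ 2
  have hR0 : ∀ a a' x, R0 a x → R0 a' x → a = a' := by
    rintro a a' x ⟨h1, r, h2, h3⟩ ⟨h4, r', h5, h6⟩
    have hr : r = r' := by
      have h7 : r ^ 3 = r' ^ 3 := by rw [h2, h5]
      exact (Odd.strictMono_pow (by decide : Odd 3)).injective h7
    funext i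
    fin_cases i
    · change a 0 = a' 0
      rw [h3, h6, hr, h1, h4]
    · change a 1 = a' 1
      rw [h1, h4]
  have hR1 : ∀ a a' x, R1 a x → R1 a' x → a = a' := by
    rintro a a' ⟨s, l, s₁⟩ ⟨h1, h2, h3, q, h4, h5, h6⟩ ⟨-, -, -, q', h7, h8, h9⟩
    have hq : q = q' := mul_left_cancel₀ h3 (h4.trans h7.symm)
    subst hq
    have h0 : s₁ * s ≠ 0 := mul_ne_zero h2 h1
    funext i
    fin_cases i
    · exact mul_right_cancel₀ h0 (h6.trans h9.symm)
    · exact mul_right_cancel₀ h0 (h5.trans h8.symm)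
  have hR2 : ∀ a a' x, R2 a x → R2 a' x → a = a' := by
    rintro a a' ⟨s, l, s₁⟩ ⟨h1, h2, h3, q, h4, h5, h6⟩ ⟨-, -, -, q', h7, h8, h9⟩
    have hq : q = q' := mul_right_cancel₀ h3 (h4.trans h7.symm)
    subst hq
    have h0 : s₁ * s ≠ 0 := mul_ne_zero h2 h1
    funext i
    fin_cases i
    · exact mul_right_cancel₀ h0 (h6.trans h9.symm)
    · exact mul_right_cancel₀ h0 (h5.trans h8.symm)
  -- covering
  have hcover : {a : Fin 2 → ℤ | a ∈ box 2 H ∧ (Irreducible (toQ (pol b a)) ∧ Sq3 (pol b a) ∧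
      ∃ C : ℕ, Squarefree C ∧ 200 * |(b : ℝ)| * H < C ∧
        ∀ p, p.Prime → p ∣ C → 7 < p ∧ IX p 2 (pol b a))} ⊆
      {a | ∃ x ∈ Finset.Icc (-(H : ℤ)) H, R0 a x} ∪
        ({a | ∃ x ∈ Tf b H, R1 a x} ∪ {a | ∃ x ∈ Tf b H, R2 a x}) := by
    rintro a ⟨ha, hirr, hsq, hC⟩
    have hbox := mem_box.1 ha
    have hA : |(a 1 : ℝ)| ≤ H := by exact_mod_cast hbox 1
    have hc : |(a 0 : ℝ)| ≤ H := by exact_mod_cast hbox 0
    rcases n3q' b hb (200 * |(b : ℝ)|) le_rfl H a hH ha hirr hsq hC with h | h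
    · left
      exact ⟨a 1, Finset.mem_Icc.2 (abs_le.1 (hbox 1)), rfl, h⟩
    · right
      obtain ⟨F, s₁, s₂, l, q, hF, hl, hq, hs1, hs2, r4, r5, r6, hpr, m1, m2, m3, m4, m5, m6,
        m7⟩ := h
      have hF0 : (0 : ℝ) < F := by
        have : 0 ≤ 200 * |(b : ℝ)| * H := by positivity
        linarith
      have hl0 : (0 : ℝ) < l := by exact_mod_cast hl
      have hq0 : (0 : ℝ) < q := by exact_mod_cast hq
      have hG' : ∀ t : ℤ, Prime t → ¬ t ∣ b → ¬ (t ∣ s₁ ∧ t ∣ s₂) := fun t h1 h2 =>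
        (hpr t h1 h2).2.2
      have hlN : ((l.toNat : ℕ) : ℤ) = l := Int.toNat_of_nonneg hl.le
      have hqN : ((q.toNat : ℕ) : ℤ) = q := Int.toNat_of_nonneg hq.le
      have h0a : 0 < |(a 0 : ℝ)| := by
        by_contra hcon
        have h1 : |(a 0 : ℝ)| = 0 := le_antisymm (not_lt.1 hcon) (abs_nonneg _)
        rw [← sq_abs (a 0 : ℝ), h1] at m3
        have : 0 < (F : ℝ) * l := by positivity
        linarith
      have h1a : 0 < |(a 1 : ℝ)| := by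
        by_contra hcon
        have h1 : |(a 1 : ℝ)| = 0 := le_antisymm (not_lt.1 hcon) (abs_nonneg _)
        rw [← sq_abs (a 1 : ℝ), h1] at m1
        have : 0 < (F : ℝ) * q := by positivity
        linarith
      rcases le_total |(a 0 : ℝ)| |(a 1 : ℝ)| with hle | hle
      · left
        have hdv : s₂ ∣ s₁ * l + b * q ^ 2 := ⟨a 1 * s₁ - l, by linear_combination -r5⟩
        obtain ⟨k1, k2⟩ := key_real (F := (F : ℝ)) (l := (l : ℝ)) (H := (H : ℝ)) (B := |(b : ℝ)|)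
          (s₁ := (s₁ : ℝ)) (s₂ := (s₂ : ℝ)) (α := |(a 1 : ℝ)|) (γ := |(a 0 : ℝ)|) hH1 hb1 hF h1a
          hA hl0.le (by rw [sq_abs]; exact m4) (by rw [sq_abs]; exact m3) h0a
          (by rw [← abs_mul]; exact m5)
          (by
            rw [← abs_mul]
            rw [max_eq_right hle] at m7
            exact m7)
        refine ⟨(s₂, l.toNat, s₁), mem_T hH hl hs2 r4 (Or.inl hdv)
          (fun t h1 h2 => (hpr t h1 h2).1) hG' k1 k2, hs2, hs1, ?_, q, ?_, ?_, ?_⟩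
        · change ((l.toNat : ℕ) : ℤ) ≠ 0
          rw [hlN]
          exact hl.ne'
        · change ((l.toNat : ℕ) : ℤ) * q = s₁ ^ 2 - s₁ * s₂ + s₂ ^ 2
          rw [hlN]
          exact r4
        · change a 1 * (s₁ * s₂) = (s₁ + s₂) * ((l.toNat : ℕ) : ℤ) + b * q ^ 2
          rw [hlN]
          exact r5
        · change a 0 * (s₁ * s₂) = (s₁ + s₂) * b * q + ((l.toNat : ℕ) : ℤ) ^ 2
          rw [hlN]
          exact r6
      · right
        have hdv : s₂ ∣ s₁ * l + b * q ^ 2 := ⟨a 1 * s₁ - l, by linear_combination -r5⟩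
        have hcomm : |(a 1 : ℝ)| * |(a 0 : ℝ)| = |(a 0 : ℝ) * a 1| := by
          rw [abs_mul, mul_comm]
        obtain ⟨k1, k2⟩ := key_real (F := (F : ℝ)) (l := (q : ℝ)) (H := (H : ℝ)) (B := |(b : ℝ)|)
          (s₁ := (s₁ : ℝ)) (s₂ := (s₂ : ℝ)) (α := |(a 0 : ℝ)|) (γ := |(a 1 : ℝ)|) hH1 hb1 hF h0a
          hc hq0.le (by rw [sq_abs]; exact m2) (by rw [sq_abs]; exact m1) h1a
          (by rw [hcomm]; exact m5)
          (by
            rw [hcomm]
            rw [max_eq_left hle] at m7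
            exact m7)
        refine ⟨(s₂, q.toNat, s₁), mem_T hH hq hs2 (by rw [mul_comm]; exact r4) (Or.inr hdv)
          (fun t h1 h2 => (hpr t h1 h2).2.1) hG' k1 k2, hs2, hs1, ?_, l, ?_, ?_, ?_⟩
        · change ((q.toNat : ℕ) : ℤ) ≠ 0
          rw [hqN]
          exact hq.ne'
        · change l * ((q.toNat : ℕ) : ℤ) = s₁ ^ 2 - s₁ * s₂ + s₂ ^ 2
          rw [hqN]
          exact r4
        · change a 1 * (s₁ * s₂) = (s₁ + s₂) * l + b * ((q.toNat : ℕ) : ℤ) ^ 2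
          rw [hqN]
          exact r5
        · change a 0 * (s₁ * s₂) = (s₁ + s₂) * b * ((q.toNat : ℕ) : ℤ) + l ^ 2
          rw [hqN]
          exact r6
  have hfinr : ∀ (β : Type) (T : Finset β) (R : (Fin 2 → ℤ) → β → Prop),
      (∀ a a' x, R a x → R a' x → a = a') → {a | ∃ x ∈ T, R a x}.Finite := by
    intro β T R hR
    have : {a | ∃ x ∈ T, R a x} = ⋃ x ∈ T, {a | R a x} := by
      ext a
      simp
    rw [this]
    refine T.finite_toSet.biUnion fun x _ => ?_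
    exact Set.Subsingleton.finite fun a ha a' ha' => hR a a' x ha ha'
  have h1 := Set.ncard_le_ncard hcover
    (((hfinr _ _ _ hR0)).union ((hfinr _ _ _ hR1).union (hfinr _ _ _ hR2)))
  have h2 := ncard_rel (Finset.Icc (-(H : ℤ)) H) R0 hR0
  have h3 := ncard_rel (Tf b H) R1 hR1
  have h4 := ncard_rel (Tf b H) R2 hR2
  have h5 := Set.ncard_union_le {a | ∃ x ∈ Finset.Icc (-(H : ℤ)) H, R0 a x}
    ({a | ∃ x ∈ Tf b H, R1 a x} ∪ {a | ∃ x ∈ Tf b H, R2 a x})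
  have h6 := Set.ncard_union_le {a | ∃ x ∈ Tf b H, R1 a x} {a | ∃ x ∈ Tf b H, R2 a x}
  have h7 : (Finset.Icc (-(H : ℤ)) H).card = 2 * H + 1 := by
    rw [Int.card_Icc]
    omega
  rw [h7] at h2
  have h8 := hK H hH
  rw [cnt]
  have h9 : ({a : Fin 2 → ℤ | a ∈ box 2 H ∧ (Irreducible (toQ (pol b a)) ∧ Sq3 (pol b a) ∧
      ∃ C : ℕ, Squarefree C ∧ 200 * |(b : ℝ)| * H < C ∧
        ∀ p, p.Prime → p ∣ C → 7 < p ∧ IX p 2 (pol b a))}.ncard : ℝ) ≤
      2 * H + 1 + 2 * (Tf b H).card := by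
    have : {a : Fin 2 → ℤ | a ∈ box 2 H ∧ (Irreducible (toQ (pol b a)) ∧ Sq3 (pol b a) ∧
      ∃ C : ℕ, Squarefree C ∧ 200 * |(b : ℝ)| * H < C ∧
        ∀ p, p.Prime → p ∣ C → 7 < p ∧ IX p 2 (pol b a))}.ncard ≤
      2 * H + 1 + 2 * (Tf b H).card := by omega
    exact_mod_cast this
  refine h9.trans ?_
  nlinarith

end Pool.Agent.H59.GF.N3A
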