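import Pool.Agent.H7.GF.Targets3
import Pool.Agent.H7.GF.Basic

/-!
# N3Q: parameters of cyclic cubics of large radical
-/

set_option autoImplicit false

namespace Pool.Agent.H59.GF.N3Q

open Polynomial Pool.Agent.H7.GF

/-! ### reduction modulo a prime -/

theorem cubic_rem {R : Type*} [CommRing R] (A c b : R) :
    (C 9 : R[X]) * (X ^ 3 + C A * X ^ 2 + C c * X + C b) -
      (C 3 * X + C A) * (C 3 * X ^ 2 + C (2 * A) * X + C c) =
      -(C (2 * (A ^ 2 - 3 * c)) * X + C (A * c - 9 * b)) := by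
  simp only [map_mul, map_sub, map_pow, map_ofNat]
  ring

theorem pol_two {R : Type} [CommRing R] (b : R) (a : Fin 2 → R) :
    pol b a = X ^ 3 + C (a 1) * X ^ 2 + C (a 0) * X + C b := by
  simp only [pol, Fin.sum_univ_two, Fin.val_zero, Fin.val_one]
  ring

theorem ix_zero {p : ℕ} (hp : p.Prime) (h7 : 7 < p) (A c b : ZMod p)
    (h : IXp 2 (X ^ 3 + C A * X ^ 2 + C c * X + C b : (ZMod p)[X])) :
    A ^ 2 - 3 * c = 0 ∧ A * c - 9 * b = 0 := by
  have : Fact p.Prime := ⟨hp⟩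
  obtain ⟨g, hg, hg2, h1, h2⟩ := h
  have hder : derivative (X ^ 3 + C A * X ^ 2 + C c * X + C b : (ZMod p)[X]) =
      C 3 * X ^ 2 + C (2 * A) * X + C c := by
    simp only [derivative_add, derivative_X_pow, derivative_C_mul, derivative_C, derivative_X,
      map_mul, map_ofNat, Nat.cast_ofNat]
    ring
  rw [hder] at h2
  have h3 : g ∣ (C (2 * (A ^ 2 - 3 * c)) * X + C (A * c - 9 * b)) := by
    have h4 := dvd_sub (Dvd.dvd.mul_left h1 (C 9)) (Dvd.dvd.mul_left h2 (C 3 * X + C A))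
    rw [cubic_rem] at h4
    exact (dvd_neg.1 h4)
  have h5 : (C (2 * (A ^ 2 - 3 * c)) * X + C (A * c - 9 * b) : (ZMod p)[X]) = 0 := by
    by_contra hne
    have h6 := natDegree_le_of_dvd h3 hne
    have h7 : (C (2 * (A ^ 2 - 3 * c)) * X + C (A * c - 9 * b) : (ZMod p)[X]).natDegree ≤ 1 :=
      natDegree_linear_le
    omega
  have h8 := congrArg (fun f => f.coeff 1) h5
  have h9 := congrArg (fun f => f.coeff 0) h5
  simp only [coeff_add, coeff_C_mul, coeff_X_one, coeff_C_succ, coeff_zero, mul_one,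
    add_zero, coeff_X_zero, mul_zero, coeff_C_zero, zero_add] at h8 h9
  refine ⟨?_, h9⟩
  have h2ne : (2 : ZMod p) ≠ 0 := by
    intro h0
    have : ((2 : ℕ) : ZMod p) = 0 := by exact_mod_cast h0
    rw [ZMod.natCast_eq_zero_iff] at this
    have := Nat.le_of_dvd (by norm_num) this
    omega
  exact (mul_eq_zero.1 h8).resolve_left h2ne

theorem prime_dvd {p : ℕ} (hp : p.Prime) (h7 : 7 < p) (b : ℤ) (a : Fin 2 → ℤ)
    (h : IX p 2 (pol b a)) {y : ℤ}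
    (hy : 4 * (a 1 ^ 2 - 3 * a 0) * (a 0 ^ 2 - 3 * a 1 * b) - (a 1 * a 0 - 9 * b) ^ 2 = 3 * y ^ 2) :
    (p : ℤ) ∣ a 1 ^ 2 - 3 * a 0 ∧ (p : ℤ) ∣ a 1 * a 0 - 9 * b ∧
      (p : ℤ) ∣ a 0 ^ 2 - 3 * a 1 * b ∧ (p : ℤ) ∣ y := by
  have hpZ : Prime (p : ℤ) := Nat.prime_iff_prime_int.1 hp
  have h3 : ¬ (p : ℤ) ∣ 3 := by
    intro h
    have h' : p ∣ 3 := by exact_mod_cast h
    have := Nat.le_of_dvd (by norm_num) h'
    omega
  have h1 : IXp 2 (toZ p (pol b a)) := h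
  rw [toZ_pol, pol_two] at h1
  obtain ⟨h4, h5⟩ := ix_zero hp h7 _ _ _ h1
  have hP : (p : ℤ) ∣ a 1 ^ 2 - 3 * a 0 := by
    rw [← ZMod.intCast_zmod_eq_zero_iff_dvd]
    push_cast
    exact h4
  have hQ : (p : ℤ) ∣ a 1 * a 0 - 9 * b := by
    rw [← ZMod.intCast_zmod_eq_zero_iff_dvd]
    push_cast
    exact h5
  have hR : (p : ℤ) ∣ a 0 ^ 2 - 3 * a 1 * b := by
    have : (p : ℤ) ∣ 3 * (a 0 ^ 2 - 3 * a 1 * b) := by
      have e : 3 * (a 0 ^ 2 - 3 * a 1 * b) = a 1 * (a 1 * a 0 - 9 * b) -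
          a 0 * (a 1 ^ 2 - 3 * a 0) := by ring
      rw [e]
      exact dvd_sub (Dvd.dvd.mul_left hQ _) (Dvd.dvd.mul_left hP _)
    exact (hpZ.dvd_or_dvd this).resolve_left h3
  refine ⟨hP, hQ, hR, ?_⟩
  have : (p : ℤ) ∣ 3 * y ^ 2 := by
    rw [← hy]
    refine dvd_sub (Dvd.dvd.mul_left hR _) ?_
    rw [sq]
    exact Dvd.dvd.mul_left hQ _
  exact hpZ.dvd_of_dvd_pow ((hpZ.dvd_or_dvd this).resolve_left h3)

theorem sqfree_dvd {C : ℕ} (hC : Squarefree C) {z : ℤ}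
    (h : ∀ p, p.Prime → p ∣ C → (p : ℤ) ∣ z) : (C : ℤ) ∣ z := by
  rw [Int.natCast_dvd]
  rw [← Nat.prod_primeFactors_of_squarefree hC]
  refine Finset.prod_primes_dvd _ (fun p hp => (Nat.prime_of_mem_primeFactors hp).prime) ?_
  intro p hp
  have := h p (Nat.prime_of_mem_primeFactors hp) (Nat.dvd_of_mem_primeFactors hp)
  exact Int.natCast_dvd.1 this

/-! ### the discriminant -/

theorem disc_ne {b : ℤ} {a : Fin 2 → ℤ} (hirr : Irreducible (toQ (pol b a)))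
    (h0 : 4 * (a 1 ^ 2 - 3 * a 0) * (a 0 ^ 2 - 3 * a 1 * b) - (a 1 * a 0 - 9 * b) ^ 2 = 0) :
    False := by
  have hroot : ∀ x : ℚ, x ^ 3 + a 1 * x ^ 2 + a 0 * x + b ≠ 0 := by
    intro x hx
    have h1 : (toQ (pol b a)).IsRoot x := by
      rw [toQ_pol, pol_two]
      simpa [IsRoot] using hx
    have h2 := degree_eq_one_of_irreducible_of_root hirr h1
    rw [toQ_pol, degree_eq_natDegree (pol_monic _ _).ne_zero, pol_natDegree] at h2
    norm_num at h2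
  have h0' : 4 * ((a 1 : ℚ) ^ 2 - 3 * a 0) * ((a 0 : ℚ) ^ 2 - 3 * a 1 * b) -
      ((a 1 : ℚ) * a 0 - 9 * b) ^ 2 = 0 := by exact_mod_cast h0
  by_cases hP : (a 1 : ℚ) ^ 2 - 3 * a 0 = 0
  · have hQ : (a 1 : ℚ) * a 0 - 9 * b = 0 := by
      rw [hP] at h0'
      have : ((a 1 : ℚ) * a 0 - 9 * b) ^ 2 = 0 := by linarith
      exact pow_eq_zero_iff (two_ne_zero) |>.1 this
    refine hroot (-(a 1 : ℚ) / 3) ?_
    have h2 : (a 0 : ℚ) = (a 1 : ℚ) ^ 2 / 3 := by linarith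
    have h3 : (b : ℚ) = (a 1 : ℚ) * a 0 / 9 := by linarith
    rw [h3, h2]
    ring
  · refine hroot (-((a 1 : ℚ) * a 0 - 9 * b) / (2 * ((a 1 : ℚ) ^ 2 - 3 * a 0))) ?_
    set A : ℚ := ((a 1 : ℤ) : ℚ)
    set c : ℚ := ((a 0 : ℤ) : ℚ)
    set B : ℚ := ((b : ℤ) : ℚ)
    set P : ℚ := A ^ 2 - 3 * c with hPd
    have e : (-(A * c - 9 * B) / (2 * P)) ^ 3 + A * (-(A * c - 9 * B) / (2 * P)) ^ 2 +
        c * (-(A * c - 9 * B) / (2 * P)) + B = (-(A * c - 9 * B) ^ 3 +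
        2 * A * P * (A * c - 9 * B) ^ 2 - 4 * c * P ^ 2 * (A * c - 9 * B) + 8 * B * P ^ 3) /
        (8 * P ^ 3) := by
      field_simp
      ring
    rw [e]
    have e2 : -(A * c - 9 * B) ^ 3 +
        2 * A * P * (A * c - 9 * B) ^ 2 - 4 * c * P ^ 2 * (A * c - 9 * B) + 8 * B * P ^ 3 = 0 := by
      rw [hPd] at h0' ⊢
      linear_combination ((A * c - 9 * B) - 2 / 3 * A * (A ^ 2 - 3 * c)) * h0'
    rw [e2, zero_div]

/-! ### sizes -/

theorem sizes {A c b F q k l Y s₁ s₂ H : ℝ} (hb : 1 ≤ |b|) (hH : 1 ≤ H) (hA : |A| ≤ H)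
    (hc : |c| ≤ H) (hF : 200 * |b| * H < F) (hP : A ^ 2 - 3 * c = F * q)
    (hQ : A * c - 9 * b = F * k) (hR : c ^ 2 - 3 * A * b = F * l) (hq : 1 ≤ q) (hl : 1 ≤ l)
    (hY : 4 * (F * q) * (F * l) - (F * k) ^ 2 = 3 * Y ^ 2) (hQY : 0 ≤ (F * k) * Y)
    (hs : 2 * (F * s₁) = F * k + Y) (hrel : A * (s₁ * s₂) = k * l + b * q ^ 2) :
    F * q ≤ 2 * A ^ 2 ∧ A ^ 2 ≤ 2 * (F * q) ∧ F * l ≤ 2 * c ^ 2 ∧ c ^ 2 ≤ 2 * (F * l) ∧
    |F * s₁| ≤ 2 * |c * A| ∧ |c * A| ≤ 2 * |F * s₁| ∧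
    |F * s₂| * |c * A| ≤ 6 * |b| * max |c| |A| ^ 3 := by
  have hbH : |b| ≤ |b| * H := le_mul_of_one_le_right (abs_nonneg _) hH
  have hHb : H ≤ |b| * H := le_mul_of_one_le_left (by linarith) hb
  have hF0 : 0 < F := by
    have : 0 ≤ 200 * |b| * H := by positivity
    linarith
  have hFq : F ≤ F * q := le_mul_of_one_le_right hF0.le hq
  have hFl : F ≤ F * l := le_mul_of_one_le_right hF0.le hl
  have hc1 := (abs_le.1 hc).1
  have hc2 := (abs_le.1 hc).2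
  have hAb : |A * b| ≤ |b| * H := by
    rw [abs_mul, mul_comm]
    exact mul_le_mul_of_nonneg_left hA (abs_nonneg _)
  have hAb1 := (abs_le.1 hAb).1
  have hAb2 := (abs_le.1 hAb).2
  have hA2 : 197 * (|b| * H) ≤ A ^ 2 := by nlinarith
  have hc2' : 197 * (|b| * H) ≤ c ^ 2 := by nlinarith
  have hq1 : F * q ≤ 1.1 * A ^ 2 := by linarith
  have hq2 : 0.9 * A ^ 2 ≤ F * q := by linarith
  have hl1 : F * l ≤ 1.1 * c ^ 2 := by linarith
  have hl2 : 0.9 * c ^ 2 ≤ F * l := by linarith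
  -- m
  have hm : 197 * (|b| * H) ≤ |A * c| := by
    have h1 : (197 * (|b| * H)) ^ 2 ≤ (A * c) ^ 2 := by
      have h2 : 0 ≤ 197 * (|b| * H) := by positivity
      calc (197 * (|b| * H)) ^ 2 = (197 * (|b| * H)) * (197 * (|b| * H)) := by ring
        _ ≤ A ^ 2 * c ^ 2 := mul_le_mul hA2 hc2' h2 (by positivity)
        _ = (A * c) ^ 2 := by ring
    have h2 := sq_le_sq.1 h1
    rwa [abs_of_nonneg (by positivity : (0 : ℝ) ≤ 197 * (|b| * H))] at h2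
  set m : ℝ := |A * c| with hmd
  have hm0 : 0 < m := by
    have : 0 < |b| * H := by positivity
    linarith
  have hmsq : m ^ 2 = A ^ 2 * c ^ 2 := by rw [hmd, sq_abs]; ring
  have hk1 : |F * k| ≤ 1.1 * m := by
    rw [← hQ]
    have := abs_sub (A * c) (9 * b)
    have h9 : |9 * b| = 9 * |b| := by rw [abs_mul]; norm_num
    rw [h9] at this
    linarith
  have hk2 : 0.9 * m ≤ |F * k| := by
    rw [← hQ]
    have := abs_sub_abs_le_abs_sub (A * c) (9 * b)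
    have h9 : |9 * b| = 9 * |b| := by rw [abs_mul]; norm_num
    rw [h9] at this
    linarith
  have hk1' : (F * k) ^ 2 ≤ 1.21 * m ^ 2 := by
    have h := pow_le_pow_left₀ (abs_nonneg _) hk1 2
    rw [sq_abs] at h
    have e : (1.1 * m) ^ 2 = 1.21 * m ^ 2 := by ring
    rwa [e] at h
  have hk2' : 0.81 * m ^ 2 ≤ (F * k) ^ 2 := by
    have h := pow_le_pow_left₀ (by positivity) hk2 2
    rw [sq_abs] at h
    have e : (0.9 * m) ^ 2 = 0.81 * m ^ 2 := by ring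
    rwa [e] at h
  have hA0 : 0 ≤ A ^ 2 := sq_nonneg A
  have hc0 : 0 ≤ c ^ 2 := sq_nonneg c
  have hpr1 : (F * q) * (F * l) ≤ 1.21 * m ^ 2 := by
    have h := mul_le_mul hq1 hl1 (by linarith) (by positivity)
    have e : 1.1 * A ^ 2 * (1.1 * c ^ 2) = 1.21 * m ^ 2 := by rw [hmsq]; ring
    rwa [e] at h
  have hpr2 : 0.81 * m ^ 2 ≤ (F * q) * (F * l) := by
    have h := mul_le_mul hq2 hl2 (by positivity) (by linarith)
    have e : 0.9 * A ^ 2 * (0.9 * c ^ 2) = 0.81 * m ^ 2 := by rw [hmsq]; ring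
    rwa [e] at h
  have hm2 : 0 ≤ m ^ 2 := sq_nonneg m
  have hY' : 4 * ((F * q) * (F * l)) - (F * k) ^ 2 = 3 * Y ^ 2 := by rw [← hY]; ring
  have hY1 : |Y| ≤ 1.2 * m := by
    have : Y ^ 2 ≤ (1.2 * m) ^ 2 := by
      have e : (1.2 * m) ^ 2 = 1.44 * m ^ 2 := by ring
      rw [e]
      linarith
    have := sq_le_sq.1 this
    rwa [abs_of_nonneg (by positivity : (0 : ℝ) ≤ 1.2 * m)] at this
  have hY2 : 0.8 * m ≤ |Y| := by
    have : (0.8 * m) ^ 2 ≤ Y ^ 2 := by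
      have e : (0.8 * m) ^ 2 = 0.64 * m ^ 2 := by ring
      rw [e]
      linarith
    have := sq_le_sq.1 this
    rwa [abs_of_nonneg (by positivity : (0 : ℝ) ≤ 0.8 * m)] at this
  have hs1 : 2 * |F * s₁| = |F * k| + |Y| := by
    have h1 : |F * k + Y| = |F * k| + |Y| := by
      rcases le_total 0 Y with h | h
      · rcases le_total 0 (F * k) with h' | h'
        · rw [abs_of_nonneg h, abs_of_nonneg h', abs_of_nonneg (by linarith)]
        · have : (F * k) * Y ≤ 0 := mul_nonpos_of_nonpos_of_nonneg h' h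
          have h0 : (F * k) * Y = 0 := le_antisymm this hQY
          rcases mul_eq_zero.1 h0 with h2 | h2 <;> rw [h2] <;> simp
      · rcases le_total 0 (F * k) with h' | h'
        · have : (F * k) * Y ≤ 0 := mul_nonpos_of_nonneg_of_nonpos h' h
          have h0 : (F * k) * Y = 0 := le_antisymm this hQY
          rcases mul_eq_zero.1 h0 with h2 | h2 <;> rw [h2] <;> simp
        · rw [abs_of_nonpos h, abs_of_nonpos h', abs_of_nonpos (by linarith)]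
          ring
    rw [← h1, ← hs, abs_mul]
    norm_num
  have hcA : |c * A| = m := by rw [hmd, mul_comm]
  rw [hcA]
  refine ⟨by linarith, by linarith, by linarith, by linarith, by linarith, by linarith, ?_⟩
  -- the last bound
  have hAc : m = |A| * |c| := by rw [hmd, abs_mul]
  have hApos : 0 < |A| := by
    by_contra h
    push Not at h
    have h1 : |A| = 0 := le_antisymm h (abs_nonneg _)
    rw [hAc, h1] at hm0
    simp at hm0
  have h1 : |A| * |F * s₁| * |F * s₂| ≤ 1.21 * (m * |c| ^ 2) + 1.21 * (|b| * |A| ^ 4) := by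
    have h2 : A * (F * s₁) * (F * s₂) = (F * k) * (F * l) + b * (F * q) ^ 2 := by
      linear_combination F ^ 2 * hrel
    have h3 : |A| * |F * s₁| * |F * s₂| = |(F * k) * (F * l) + b * (F * q) ^ 2| := by
      rw [← h2, abs_mul (A * (F * s₁)) (F * s₂), abs_mul A (F * s₁)]
    rw [h3]
    refine (abs_add_le _ _).trans (add_le_add ?_ ?_)
    · rw [abs_mul]
      have h4 : |F * l| ≤ 1.1 * |c| ^ 2 := by
        rw [sq_abs, abs_of_nonneg (by linarith)]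
        exact hl1
      have h6 := mul_le_mul hk1 h4 (abs_nonneg _) (by positivity)
      refine h6.trans (le_of_eq ?_)
      ring
    · rw [abs_mul]
      have h4 : |(F * q) ^ 2| ≤ 1.21 * |A| ^ 4 := by
        rw [abs_of_nonneg (sq_nonneg _)]
        have h5 : |A| ^ 4 = A ^ 2 * A ^ 2 := by
          rw [← sq_abs]
          ring
        rw [h5]
        have h6 := mul_le_mul hq1 hq1 (by linarith) (by positivity)
        rw [sq (F * q)]
        refine h6.trans (le_of_eq ?_)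
        ring
      have h6 := mul_le_mul_of_nonneg_left h4 (abs_nonneg b)
      refine h6.trans (le_of_eq ?_)
      ring
  have h2 : 0.85 * m ≤ |F * s₁| := by linarith
  have h3 : |A| * (0.85 * m * |F * s₂|) ≤ |A| * (1.21 * (|c| ^ 3 + |b| * |A| ^ 3)) := by
    have h4 : |A| * (0.85 * m * |F * s₂|) ≤ |A| * |F * s₁| * |F * s₂| := by
      have h5 := mul_le_mul_of_nonneg_right h2 (abs_nonneg (F * s₂))
      have h6 := mul_le_mul_of_nonneg_left h5 hApos.le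
      refine h6.trans (le_of_eq ?_)
      ring
    refine (h4.trans h1).trans (le_of_eq ?_)
    rw [hAc]
    ring
  have h4 : 0.85 * m * |F * s₂| ≤ 1.21 * (|c| ^ 3 + |b| * |A| ^ 3) :=
    le_of_mul_le_mul_left h3 hApos
  have h5 : |c| ^ 3 ≤ |b| * max |c| |A| ^ 3 := by
    have h6 : |c| ^ 3 ≤ max |c| |A| ^ 3 := pow_le_pow_left₀ (abs_nonneg _) (le_max_left _ _) 3
    have h7 : max |c| |A| ^ 3 ≤ |b| * max |c| |A| ^ 3 :=
      le_mul_of_one_le_left (by positivity) hb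
    exact h6.trans h7
  have h6 : |b| * |A| ^ 3 ≤ |b| * max |c| |A| ^ 3 :=
    mul_le_mul_of_nonneg_left (pow_le_pow_left₀ (abs_nonneg _) (le_max_right _ _) 3)
      (abs_nonneg _)
  have h7 : 0 ≤ |b| * max |c| |A| ^ 3 := by positivity
  have h8 : 0.85 * (|F * s₂| * m) ≤ 1.21 * (|c| ^ 3 + |b| * |A| ^ 3) := by
    have e : 0.85 * (|F * s₂| * m) = 0.85 * m * |F * s₂| := by ring
    rw [e]
    exact h4
  have h9 : 6 * |b| * max |c| |A| ^ 3 = 6 * (|b| * max |c| |A| ^ 3) := by ring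
  rw [h9]
  linarith

/-! ### main theorem -/

/-- the statement for every sufficiently large constant -/
theorem n3q' (b : ℤ) (hb : b ≠ 0) (κ : ℝ) (hκ : 200 * |(b : ℝ)| ≤ κ) (H : ℕ) (a : Fin 2 → ℤ)
    (hH : 1 ≤ H) (ha : a ∈ box 2 H) (hirr : Irreducible (toQ (pol b a))) (hsq : Sq3 (pol b a))
    (hC : ∃ C : ℕ, Squarefree C ∧ κ * H < C ∧ ∀ p, p.Prime → p ∣ C → 7 < p ∧ IX p 2 (pol b a)) :
    (∃ r : ℤ, r ^ 3 = -b ∧ a 0 = r * a 1 - 3 * r ^ 2) ∨
    ∃ (F s₁ s₂ l q : ℤ), κ * H < F ∧ 0 < l ∧ 0 < q ∧ s₁ ≠ 0 ∧ s₂ ≠ 0 ∧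
      l * q = s₁ ^ 2 - s₁ * s₂ + s₂ ^ 2 ∧
      a 1 * (s₁ * s₂) = (s₁ + s₂) * l + b * q ^ 2 ∧ a 0 * (s₁ * s₂) = (s₁ + s₂) * b * q + l ^ 2 ∧
      (∀ t : ℤ, Prime t → ¬ t ∣ b → ¬ (t ∣ s₂ ∧ t ∣ l) ∧ ¬ (t ∣ s₂ ∧ t ∣ q) ∧
        ¬ (t ∣ s₁ ∧ t ∣ s₂)) ∧
      (F : ℝ) * q ≤ 2 * (a 1 : ℝ) ^ 2 ∧ (a 1 : ℝ) ^ 2 ≤ 2 * (F * q) ∧
      (F : ℝ) * l ≤ 2 * (a 0 : ℝ) ^ 2 ∧ (a 0 : ℝ) ^ 2 ≤ 2 * (F * l) ∧
      |(F : ℝ) * s₁| ≤ 2 * |(a 0 : ℝ) * a 1| ∧ |(a 0 : ℝ) * a 1| ≤ 2 * |(F : ℝ) * s₁| ∧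
      |(F : ℝ) * s₂| * |(a 0 : ℝ) * a 1| ≤ 6 * |(b : ℝ)| * max |(a 0 : ℝ)| |(a 1 : ℝ)| ^ 3 := by
  have hb1 : (1 : ℝ) ≤ |(b : ℝ)| := by exact_mod_cast Int.one_le_abs hb
  have hH1 : (1 : ℝ) ≤ H := by exact_mod_cast hH
  have hbox := mem_box.1 ha
  have hA : |(a 1 : ℝ)| ≤ H := by exact_mod_cast hbox 1
  have hc : |(a 0 : ℝ)| ≤ H := by exact_mod_cast hbox 0
  obtain ⟨y₀, hy₀⟩ := hsq
  have e0 : (pol b a).coeff 0 = b := pol_coeff_zero b a
  have e1 : (pol b a).coeff 1 = a 0 := pol_coeff_succ b a 0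
  have e2 : (pol b a).coeff 2 = a 1 := pol_coeff_succ b a 1
  rw [e0, e1, e2] at hy₀
  set P : ℤ := a 1 ^ 2 - 3 * a 0 with hPd
  set Q : ℤ := a 1 * a 0 - 9 * b with hQd
  set R : ℤ := a 0 ^ 2 - 3 * a 1 * b with hRd
  -- the sign of y
  obtain ⟨y, hy, hQy⟩ : ∃ y : ℤ, 4 * P * R - Q ^ 2 = 3 * y ^ 2 ∧ 0 ≤ Q * y := by
    rcases le_total 0 (Q * y₀) with h | h
    · exact ⟨y₀, hy₀, h⟩
    · refine ⟨-y₀, ?_, ?_⟩
      · rw [hy₀]; ring
      · rw [mul_neg]; linarith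
  have hy0 : y ≠ 0 := by
    rintro rfl
    refine disc_ne hirr ?_
    rw [← hPd, ← hQd, ← hRd, hy]
    ring
  obtain ⟨C, hCs, hCH, hCp⟩ := hC
  -- the gcd
  obtain ⟨F, hF0, hFP, hFQ, hFR, hFy, hFd⟩ : ∃ F : ℤ, 0 < F ∧ F ∣ P ∧ F ∣ Q ∧ F ∣ R ∧ F ∣ y ∧
      ∀ d : ℤ, d ∣ P → d ∣ Q → d ∣ R → d ∣ y → d ∣ F := by
    refine ⟨(Int.gcd (Int.gcd P Q) (Int.gcd R y) : ℤ), ?_, ?_, ?_, ?_, ?_, ?_⟩
    · have : 0 < Int.gcd (Int.gcd P Q : ℤ) (Int.gcd R y : ℤ) := by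
        refine Int.gcd_pos_of_ne_zero_right _ ?_
        have : 0 < Int.gcd R y := Int.gcd_pos_of_ne_zero_right _ hy0
        exact_mod_cast this.ne'
      exact_mod_cast this
    · exact (Int.gcd_dvd_left _ _).trans (Int.gcd_dvd_left _ _)
    · exact (Int.gcd_dvd_left _ _).trans (Int.gcd_dvd_right _ _)
    · exact (Int.gcd_dvd_right _ _).trans (Int.gcd_dvd_left _ _)
    · exact (Int.gcd_dvd_right _ _).trans (Int.gcd_dvd_right _ _)
    · intro d h1 h2 h3 h4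
      exact Int.dvd_coe_gcd (Int.dvd_coe_gcd h1 h2) (Int.dvd_coe_gcd h3 h4)
  have hCF : (C : ℤ) ∣ F := by
    have hpr : ∀ p, p.Prime → p ∣ C → (p : ℤ) ∣ P ∧ (p : ℤ) ∣ Q ∧ (p : ℤ) ∣ R ∧ (p : ℤ) ∣ y :=
      fun p hp hpC => prime_dvd hp (hCp p hp hpC).1 b a (hCp p hp hpC).2 hy
    exact hFd _ (sqfree_dvd hCs fun p hp h => (hpr p hp h).1)
      (sqfree_dvd hCs fun p hp h => (hpr p hp h).2.1)
      (sqfree_dvd hCs fun p hp h => (hpr p hp h).2.2.1)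
      (sqfree_dvd hCs fun p hp h => (hpr p hp h).2.2.2)
  have hCF' : (C : ℝ) ≤ F := by exact_mod_cast Int.le_of_dvd hF0 hCF
  have hFH' : κ * H < F := lt_of_lt_of_le hCH hCF'
  have hFH : 200 * |(b : ℝ)| * H < F :=
    lt_of_le_of_lt (mul_le_mul_of_nonneg_right hκ (by linarith)) hFH'
  obtain ⟨q, hq⟩ := hFP
  obtain ⟨k, hk⟩ := hFQ
  obtain ⟨l, hl⟩ := hFR
  obtain ⟨t, ht⟩ := hFy
  have hF0' : F ≠ 0 := hF0.ne'
  -- relations
  have r1 : k ^ 2 + 3 * t ^ 2 = 4 * (l * q) := by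
    rw [hq, hk, hl, ht] at hy
    have : F ^ 2 * (k ^ 2 + 3 * t ^ 2) = F ^ 2 * (4 * (l * q)) := by linear_combination -hy
    exact mul_left_cancel₀ (pow_ne_zero 2 hF0') this
  have r2 : k * a 1 - q * a 0 = 3 * l := by
    have : F * (k * a 1 - q * a 0) = F * (3 * l) := by
      have e3 : Q * a 1 - P * a 0 = 3 * R := by rw [hPd, hQd, hRd]; ring
      rw [hq, hk, hl] at e3
      linear_combination e3
    exact mul_left_cancel₀ hF0' this
  have r3 : k * a 0 - l * a 1 = 3 * b * q := by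
    have : F * (k * a 0 - l * a 1) = F * (3 * b * q) := by
      have e3 : Q * a 0 - R * a 1 = 3 * b * P := by rw [hPd, hQd, hRd]; ring
      rw [hq, hk, hl] at e3
      linear_combination e3
    exact mul_left_cancel₀ hF0' this
  -- positivity
  have hPR : 0 < P * R := by
    have : 0 < y ^ 2 := by positivity
    nlinarith [sq_nonneg Q]
  have hFR' : (0 : ℝ) < F := by exact_mod_cast hF0
  have hPpos : 0 < P := by
    by_contra hneg
    push Not at hneg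
    have hPne : P ≠ 0 := by
      rintro h0
      rw [h0] at hPR
      simp at hPR
    have h1 : F ≤ |P| := Int.le_of_dvd (abs_pos.2 hPne) ((dvd_abs _ _).2 ⟨q, hq⟩)
    have h2 : (F : ℝ) ≤ |(P : ℝ)| := by exact_mod_cast h1
    have h3 : (P : ℝ) ≤ 0 := by exact_mod_cast hneg
    rw [abs_of_nonpos h3] at h2
    have h4 : (P : ℝ) = (a 1 : ℝ) ^ 2 - 3 * a 0 := by rw [hPd]; push_cast; ring
    have h5 := (abs_le.1 hc).2
    have h6 := sq_nonneg (a 1 : ℝ)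
    nlinarith
  have hRpos : 0 < R := by
    by_contra hneg
    push Not at hneg
    nlinarith
  have hq0 : 0 < q := by
    rw [hq] at hPpos
    exact (mul_pos_iff_of_pos_left hF0).1 hPpos
  have hl0 : 0 < l := by
    rw [hl] at hRpos
    exact (mul_pos_iff_of_pos_left hF0).1 hRpos
  -- s1, s2
  obtain ⟨s₂, hs₂⟩ : ∃ s : ℤ, k - t = 2 * s := by
    rcases Int.even_or_odd (k - t) with ⟨s, hs⟩ | ⟨s, hs⟩
    · exact ⟨s, by linarith⟩
    · exfalso
      have hk' : k = t + 2 * s + 1 := by linarith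
      rw [hk'] at r1
      have : 2 * (2 * (s * s) + 2 * s + t * (2 * s + 1) + 2 * (t * t) - 2 * (l * q)) = -1 := by
        linear_combination r1
      omega
  obtain ⟨s₁, hs₁⟩ : ∃ s : ℤ, k + t = 2 * s := ⟨s₂ + t, by linarith⟩
  have hk' : k = s₁ + s₂ := by linarith
  have ht' : t = s₁ - s₂ := by linarith
  have r4 : l * q = s₁ ^ 2 - s₁ * s₂ + s₂ ^ 2 := by
    rw [hk', ht'] at r1
    linarith
  have r5 : a 1 * (s₁ * s₂) = (s₁ + s₂) * l + b * q ^ 2 := by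
    rw [hk'] at r2 r3
    have : 3 * (a 1 * (s₁ * s₂)) = 3 * ((s₁ + s₂) * l + b * q ^ 2) := by
      linear_combination (s₁ + s₂) * r2 + q * r3 + a 1 * r4
    linarith
  have r6 : a 0 * (s₁ * s₂) = (s₁ + s₂) * b * q + l ^ 2 := by
    rw [hk'] at r2 r3
    have : 3 * (a 0 * (s₁ * s₂)) = 3 * ((s₁ + s₂) * b * q + l ^ 2) := by
      linear_combination (s₁ + s₂) * r3 + l * r2 + a 0 * r4
    linarith
  by_cases hs0 : s₁ * s₂ = 0
  · left
    rw [hs0, mul_zero] at r5 r6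
    have hkne : k ≠ 0 := by
      rw [hk']
      intro h0
      rw [h0] at r5
      have : b * q ^ 2 = 0 := by linarith
      rcases mul_eq_zero.1 this with h | h
      · exact hb h
      · exact hq0.ne' (pow_eq_zero_iff two_ne_zero |>.1 h)
    have hk2 : k ^ 2 = l * q := by
      rw [r4, hk']
      linear_combination 3 * hs0
    have hk3 : k ^ 3 = -b * q ^ 3 := by
      rw [← hk'] at r5
      have : k ^ 3 = k * (l * q) := by rw [← hk2]; ring
      rw [this]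
      linear_combination -q * r5
    have hdvd : q ∣ k := by
      have : q ^ 3 ∣ k ^ 3 := ⟨-b, by rw [hk3]; ring⟩
      exact (Int.pow_dvd_pow_iff (by norm_num)).1 this
    obtain ⟨r, hr⟩ := hdvd
    have hr3 : r ^ 3 = -b := by
      have : q ^ 3 * r ^ 3 = q ^ 3 * (-b) := by
        rw [← mul_pow, ← hr, hk3]
        ring
      exact mul_left_cancel₀ (pow_ne_zero 3 hq0.ne') this
    have hlr : l = r ^ 2 * q := by
      have : q * l = q * (r ^ 2 * q) := by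
        rw [hr] at hk2
        linear_combination -hk2
      exact mul_left_cancel₀ hq0.ne' this
    refine ⟨r, hr3, ?_⟩
    rw [hr, hlr] at r2
    have : q * a 0 = q * (r * a 1 - 3 * r ^ 2) := by linear_combination -r2
    exact mul_left_cancel₀ hq0.ne' this
  · right
    have hs1 : s₁ ≠ 0 := fun h => hs0 (by rw [h, zero_mul])
    have hs2 : s₂ ≠ 0 := fun h => hs0 (by rw [h, mul_zero])
    -- no common prime factor
    have hcop : ∀ t' : ℤ, Prime t' → t' ∣ q → t' ∣ l → t' ∣ s₁ → t' ∣ s₂ → False := by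
      intro t' ht'p h1 h2 h3 h4
      have h5 : F * t' ∣ F := by
        refine hFd _ ?_ ?_ ?_ ?_
        · rw [hq]; exact mul_dvd_mul_left _ h1
        · rw [hk, hk']; exact mul_dvd_mul_left _ (dvd_add h3 h4)
        · rw [hl]; exact mul_dvd_mul_left _ h2
        · rw [ht, ht']; exact mul_dvd_mul_left _ (dvd_sub h3 h4)
      obtain ⟨z, hz⟩ := h5
      have : t' * z = 1 := by
        have : F * (t' * z) = F * 1 := by rw [mul_one, ← mul_assoc]; exact hz.symm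
        exact mul_left_cancel₀ hF0' this
      exact ht'p.not_isUnit (IsUnit.of_mul_eq_one _ this)
    have hprimes : ∀ t' : ℤ, Prime t' → ¬ t' ∣ b → ¬ (t' ∣ s₂ ∧ t' ∣ l) ∧ ¬ (t' ∣ s₂ ∧ t' ∣ q) ∧
        ¬ (t' ∣ s₁ ∧ t' ∣ s₂) := by
      intro t' hp hb'
      have hql : t' ∣ l → (t' ∣ s₁ * s₂) → t' ∣ q := by
        intro h1 h2
        have : t' ∣ b * q ^ 2 := by
          have e3 : b * q ^ 2 = a 1 * (s₁ * s₂) - (s₁ + s₂) * l := by linarith
          rw [e3]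
          exact dvd_sub (Dvd.dvd.mul_left h2 _) (Dvd.dvd.mul_left h1 _)
        exact hp.dvd_of_dvd_pow ((hp.dvd_or_dvd this).resolve_left hb')
      have hlq : t' ∣ (s₁ + s₂) * q → (t' ∣ s₁ * s₂) → t' ∣ l := by
        intro h1 h2
        have : t' ∣ l ^ 2 := by
          have e3 : l ^ 2 = a 0 * (s₁ * s₂) - b * ((s₁ + s₂) * q) := by linarith
          rw [e3]
          exact dvd_sub (Dvd.dvd.mul_left h2 _) (Dvd.dvd.mul_left h1 _)
        exact hp.dvd_of_dvd_pow this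
      have hs1' : t' ∣ l → t' ∣ s₂ → t' ∣ s₁ := by
        intro h1 h2
        have : t' ∣ s₁ ^ 2 := by
          have e3 : s₁ ^ 2 = l * q + s₁ * s₂ - s₂ * s₂ := by rw [r4]; ring
          rw [e3]
          exact dvd_sub (dvd_add (Dvd.dvd.mul_right h1 _) (Dvd.dvd.mul_left h2 _))
            (Dvd.dvd.mul_left h2 _)
        exact hp.dvd_of_dvd_pow this
      refine ⟨?_, ?_, ?_⟩
      · rintro ⟨h1, h2⟩
        exact hcop t' hp (hql h2 (Dvd.dvd.mul_left h1 _)) h2 (hs1' h2 h1) h1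
      · rintro ⟨h1, h2⟩
        have h3 := hlq (Dvd.dvd.mul_left h2 _) (Dvd.dvd.mul_left h1 _)
        exact hcop t' hp h2 h3 (hs1' h3 h1) h1
      · rintro ⟨h1, h2⟩
        have h3 := hlq (Dvd.dvd.mul_right (dvd_add h1 h2) _) (Dvd.dvd.mul_left h2 _)
        exact hcop t' hp (hql h3 (Dvd.dvd.mul_left h2 _)) h3 h1 h2
    have hq1 : (1 : ℝ) ≤ q := by exact_mod_cast hq0
    have hl1 : (1 : ℝ) ≤ l := by exact_mod_cast hl0
    have hmain := sizes (A := (a 1 : ℝ)) (c := (a 0 : ℝ)) (b := (b : ℝ)) (F := (F : ℝ))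
      (q := (q : ℝ)) (k := (k : ℝ)) (l := (l : ℝ)) (Y := (y : ℝ)) (s₁ := (s₁ : ℝ))
      (s₂ := (s₂ : ℝ)) (H := (H : ℝ)) hb1 hH1 hA hc hFH (by exact_mod_cast hq)
      (by exact_mod_cast hk) (by exact_mod_cast hl) hq1 hl1
      (by
        have : 4 * (F * q) * (F * l) - (F * k) ^ 2 = 3 * y ^ 2 := by rw [← hq, ← hk, ← hl]; exact hy
        exact_mod_cast this)
      (by
        have : 0 ≤ (F * k) * y := by rw [← hk]; exact hQy
        exact_mod_cast this)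
      (by
        have : 2 * (F * s₁) = F * k + y := by rw [ht]; linear_combination -F * hs₁
        exact_mod_cast this)
      (by
        have : a 1 * (s₁ * s₂) = k * l + b * q ^ 2 := by rw [r5, hk']
        exact_mod_cast this)
    obtain ⟨m1, m2, m3, m4, m5, m6, m7⟩ := hmain
    exact ⟨F, s₁, s₂, l, q, hFH', hl0, hq0, hs1, hs2, r4, r5, r6, hprimes, m1, m2, m3, m4, m5,
      m6, m7⟩

theorem n3q : T_N3Q := by
  intro b hb
  refine ⟨200 * |(b : ℝ)|, ?_, ?_⟩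
  · have : (1 : ℝ) ≤ |(b : ℝ)| := by exact_mod_cast Int.one_le_abs hb
    linarith
  intro H a hH ha hirr hsq hC
  exact n3q' b hb _ le_rfl H a hH ha hirr hsq hC

end Pool.Agent.H59.GF.N3Q
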